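import Pool.Agent.Y198.DC.Stm2

/-! DD-QUOT: from a module of infinite projective dimension and depth `dim R` to one of dimension `0` -/

set_option autoImplicit false

universe u

open CategoryTheory IsLocalRing TensorProduct Pointwise

namespace Pool.Agent.Y232.DC

open Pool.Agent.Y198.DC

theorem t : S_QUOT := by
  intro R _ _ _ d hdim B _ _ _ hpd zs hlen hmem hreg
  have hnt : Nontrivial (B ⧸ Ideal.ofList zs • (⊤ : Submodule R B)) :=
    Submodule.Quotient.nontrivial_iff.mpr hreg.2.symm
  have hB : Nontrivial B := by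
    by_contra h
    rw [not_nontrivial_iff_subsingleton] at h
    exact (not_subsingleton_iff_nontrivial.2 hnt) inferInstance
  refine ⟨B ⧸ Ideal.ofList zs • (⊤ : Submodule R B), inferInstance, inferInstance, inferInstance,
    hnt, ?_, ?_⟩
  · intro p hp
    by_contra hne
    have h1 := Module.supportDim_add_length_eq_supportDim_of_isRegular zs hreg
    have h2 := Module.supportDim_le_ringKrullDim R B
    rw [← h1, hdim, hlen] at h2
    have hne2 := Module.supportDim_ne_bot_of_nontrivial R
      (B ⧸ Ideal.ofList zs • (⊤ : Submodule R B))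
    obtain ⟨e, he⟩ := WithBot.ne_bot_iff_exists.mp hne2
    rw [← he] at h2
    have h3 : e + (d : ℕ∞) ≤ (d : ℕ∞) := by exact_mod_cast h2
    have h4 : (1 : WithBot ℕ∞) ≤ Module.supportDim R
        (B ⧸ Ideal.ofList zs • (⊤ : Submodule R B)) := by
      rw [Module.supportDim, Order.one_le_krullDim_iff]
      refine ⟨⟨p, hp⟩, ⟨closedPoint R, closedPoint_mem_support R _⟩, ?_⟩
      change p.asIdeal < maximalIdeal R
      exact lt_of_le_of_ne (IsLocalRing.le_maximalIdeal p.2.ne_top) hne
    rw [← he] at h4
    have h5 : (1 : ℕ∞) ≤ e := by exact_mod_cast h4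
    have h6 : (1 : ℕ∞) + d ≤ d := (add_le_add h5 le_rfl).trans h3
    have h7 : 1 + d ≤ d := by exact_mod_cast h6
    omega
  · have h := ModuleCat.projectiveDimension_quotient_eq_add_length_of_isWeaklyRegular
      (ModuleCat.of R B) zs hreg.1 hmem
    rw [hpd] at h
    exact h.trans (by rfl)

end Pool.Agent.Y232.DC
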